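import Pool.Agent.U253.MF.Gap

/-!
# A relation on average between a cuspidal representation and motives over several fields is exact, with the Hodge numbers

Let `I` be finite, and for every `i ∈ I` let `M_i` be an algebraic cuspidal representation of `GL_n` over a number field
`K_i`, or a pure motive over `K_i` (for a motive of weight `w` the eigenvalues of the Frobenius at `v` are divided by
`N(v)^{w/2}`). The fields `K_i` may all be different. Let `E_i(v)` be the eigenvalues at the places `v` above the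
rational primes `p` outside a finite set `S`, and let the gamma factor of `M_i` be
`Γ_ℝ(s)^a Γ_ℝ(s + 1)^b ∏_{k ∈ H} Γ_ℂ(s + k/2)`: `a`, `b` are the numbers `h_+`, `h_-` and `H` is the multiset of the `|p - q| > 0` for the
pairs `(p, q)`, `(q, p)` of Hodge types, all archimedean places together (the Hodge numbers of the restriction of scalars to `ℚ`). The
L-functions of `M_i` and its dual are supposed to have a continuation and functional equation. This is known for
cuspidal representations (Godement and Jacquet), for Artin motives (Brauer), and for potentially automorphic motives.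

Suppose that the ONE relation `∑_i c_i ∑_{v ∣ p, deg v = 1} tr E_i(v) = 0` with real coefficients holds on average, i.e. up to an
error `g(p)` with `∑_{p < X} g(p) log p = o(√X)`. Then

1. it holds EXACTLY above every `p ∉ S`, and for all powers of the Frobenius; if the `c_i` are integers then
   `∏_i L_p(s, M_i)^{c_i} = 1` for every `p ∉ S`;
2. `∑_i c_i a_i = ∑_i c_i b_i = 0` and `∑_i c_i #{k ∈ H_i} = 0` for every `k ≥ 1`: the Hodge numbers satisfy the same relation, and so
   do the signatures of the complex conjugation;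
3. every eigenvalue of an `M_i` with `c_i > 0` comes from an `M_j` with `c_j < 0`. So if these are pure then so is `M_i`.

For instance let `Π` be an algebraic cuspidal representation of `GL_n` over `ℚ` whose coefficients agree on average with those of the
motive `M = ⊕_j Res_{K_j/ℚ} N_j^{m_j}`. Then `Π` is tempered outside `S`, `M` has the Hodge numbers and the signature which Clozel
predicts for `Π`, and the L-factors of `Π` and `M` agree at all `p ∉ S`.
-/

set_option autoImplicit false

open Filter Topology Asymptotics NumberField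

namespace Pool.Agent.Results.MP_7742d9_nt.ApproximateMotives

/-- `∏_{m ∈ κ} Γ_ℝ(s + m)⁻¹`, `Γ_ℝ(s) = π^{-s/2} Γ(s/2)` -/
noncomputable def invGamma (κ : Multiset ℂ) (s : ℂ) : ℂ :=
  (κ.map fun m => (Complex.Gammaℝ (s + m))⁻¹).prod

/-- `∏_{(p, b) ∈ l} (1 - b p^{-s})` -/
noncomputable def finEuler (l : List (ℕ × ℂ)) (s : ℂ) : ℂ :=
  (l.map fun x => 1 - x.2 * (x.1 : ℂ) ^ (-s)).prod

/-- the places of `K` above the rational prime `p`: the prime ideals `v` of `𝓞 K` which contain `p` -/
noncomputable def places (K : Type) [Field K] [NumberField K] (p : ℕ) : Finset (Ideal (𝓞 K)) :=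
  IsDedekindDomain.primesOverFinset (Ideal.span {(p : ℤ)}) (𝓞 K)

/-- the residue degree of the place `v` above `p`: `N(v) = p^{degree p v}` -/
noncomputable def degree {K : Type} [Field K] [NumberField K] (p : ℕ) (v : Ideal (𝓞 K)) : ℕ :=
  (Ideal.span {(p : ℤ)}).inertiaDeg' v

/-- the product `∏_{v ∣ p} ∏_{a ∈ E v} (1 - a N(v)^{-s})⁻¹` of the Euler factors above `p` -/
noncomputable def eulerFactor (K : Type) [Field K] [NumberField K] (E : Ideal (𝓞 K) → Multiset ℂ)
    (p : ℕ) (s : ℂ) : ℂ :=
  ∏ v ∈ places K p, ((E v).map fun a => (1 - a * (Ideal.absNorm v : ℂ) ^ (-s))⁻¹).prod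

/-- the Euler product `∏_{p ∉ S} F p s` extends to the meromorphic function `N/D` on `ℂ` -/
structure Continuation (S : Finset ℕ) (F : ℕ → ℂ → ℂ) (N D : ℂ → ℂ) : Prop where
  /-- `N` is entire -/
  entire_N : Differentiable ℂ N
  /-- `D` is entire -/
  entire_D : Differentiable ℂ D
  /-- `N` and `D` are of order at most `3/2` -/
  order : ∃ C : ℝ, ∀ s, ‖N s‖ ≤ Real.exp (C * (1 + ‖s‖) ^ (3 / 2 : ℝ)) ∧
    ‖D s‖ ≤ Real.exp (C * (1 + ‖s‖) ^ (3 / 2 : ℝ))
  /-- `D` has no zeros in `Re s > 1` -/
  ne_zero : ∀ s : ℂ, 1 < s.re → D s ≠ 0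
  /-- the partial Euler products converge to `N/D` in `Re s > 1` -/
  euler : ∀ s : ℂ, 1 < s.re → Tendsto (fun X : ℕ =>
    ∏ p ∈ (Finset.range X).filter (fun p => p.Prime ∧ p ∉ S), F p s) atTop (𝓝 (N s / D s))

/-- the functional equation `Λ(s) = ε Λ'(1 - s)` between the L-functions `N/D` and `N'/D'` of the object and its dual, with
`Λ(s) = q^s · (invGamma κ s · finEuler m s)⁻¹ · finEuler l' s · N s / D s` and
`Λ'(s) = q^s · (invGamma κ s · finEuler l s)⁻¹ · finEuler m' s · N' s / D' s`; the finite products are the Euler factors above `S` -/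
def FunctionalEquation (S : Finset ℕ) (κ : Multiset ℂ) (N D N' D' : ℂ → ℂ) : Prop :=
  ∃ (l l' m m' : List (ℕ × ℂ)) (q : ℝ) (ε : ℂ), 0 < q ∧ ε ≠ 0 ∧
    (∀ x ∈ l, x.1.Prime ∧ x.1 ∈ S) ∧ (∀ x ∈ l', x.1.Prime ∧ x.1 ∈ S) ∧
    (∀ x ∈ m, x.1.Prime ∧ x.1 ∈ S) ∧ (∀ x ∈ m', x.1.Prime ∧ x.1 ∈ S) ∧
    ∀ s, (q : ℂ) ^ s * invGamma κ (1 - s) * finEuler l (1 - s) * finEuler l' s * (N s * D' (1 - s)) =
      ε * (q : ℂ) ^ (1 - s) * invGamma κ s * finEuler m s * finEuler m' (1 - s) * (N' (1 - s) * D s)

/-- the shifts of the gamma factor `Γ_ℝ(s)^a Γ_ℝ(s + 1)^b ∏_{k ∈ H} Γ_ℂ(s + k/2)`, `Γ_ℂ(s) = Γ_ℝ(s) Γ_ℝ(s + 1)` -/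
noncomputable def shifts (a b : ℕ) (H : Multiset ℕ) : Multiset ℂ :=
  a • {0} + b • {1} + H.bind fun k => {(k : ℂ) / 2} + {(k : ℂ) / 2 + 1}

/-- the properties of the representation or motive `M` of rank `n` over `K` which are used; `E v` are the normalised
eigenvalues at `v`, and `a`, `b`, `H` are the Hodge numbers -/
structure Object (K : Type) [Field K] [NumberField K] (S : Finset ℕ) (n a b : ℕ) (H : Multiset ℕ)
    (E : Ideal (𝓞 K) → Multiset ℂ) : Prop where
  /-- there are `n` eigenvalues -/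
  card : ∀ p : ℕ, p.Prime → p ∉ S → ∀ v ∈ places K p, (E v).card = n
  /-- they are not zero -/
  ne_zero : ∀ p : ℕ, p.Prime → p ∉ S → ∀ v ∈ places K p, ∀ x ∈ E v, x ≠ 0
  /-- the eigenvalues and their conjugate inverses agree as multisets (`Π_v` is unitary; for motives all `|x| = 1`) -/
  unitary : ∀ p : ℕ, p.Prime → p ∉ S → ∀ v ∈ places K p,
    (E v).map (fun x => ((starRingEnd ℂ) x)⁻¹) = E v
  /-- the elements of `H` are positive -/
  positive : ∀ k ∈ H, 0 < k
  /-- the L-functions of `M` and its dual continue and have the functional equation -/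
  nice : ∃ N D N' D' : ℂ → ℂ, Continuation S (eulerFactor K E) N D ∧
    Continuation S (eulerFactor K fun v => (E v).map fun x => x⁻¹) N' D' ∧
    FunctionalEquation S (shifts a b H) N D N' D'

section arch

open Pool.Agent.U253.SPL Pool.Agent.N210.FW

/-- the exponents -/
noncomputable def expo (a b : ℕ) (H : Multiset ℕ) : List ℂ :=
  ((a + b) • {0} + H.bind fun k => 2 • {(k : ℂ) / 2} : Multiset ℂ).toList

theorem toList_sum (A : Multiset ℂ) (F : ℂ → ℝ) : (A.toList.map F).sum = (A.map F).sum := by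
  conv_rhs => rw [← Multiset.coe_toList A, Multiset.map_coe, Multiset.sum_coe]

theorem expo_sum (a b : ℕ) (H : Multiset ℕ) (F : ℂ → ℝ) :
    ((expo a b H).map F).sum = ((a : ℝ) + b) * F 0 + (H.map fun k : ℕ => 2 * F ((k : ℂ) / 2)).sum := by
  unfold expo
  rw [toList_sum, Multiset.map_add, Multiset.sum_add, Multiset.map_nsmul, Multiset.sum_nsmul,
    Multiset.map_singleton, Multiset.sum_singleton, Multiset.map_bind, Multiset.sum_bind, nsmul_eq_mul]
  push_cast
  congr 2
  refine Multiset.map_congr rfl fun k _ => ?_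
  rw [Multiset.map_nsmul, Multiset.sum_nsmul, Multiset.map_singleton, Multiset.sum_singleton, nsmul_eq_mul]
  norm_num

theorem shifts_map (a b : ℕ) (H : Multiset ℕ) (F : ℂ → ℝ) :
    ((shifts a b H).map F).sum = a * F 0 + b * F 1 +
      (H.map fun k : ℕ => F ((k : ℂ) / 2) + F ((k : ℂ) / 2 + 1)).sum := by
  unfold shifts
  simp only [Multiset.map_add, Multiset.sum_add, Multiset.map_nsmul, Multiset.sum_nsmul,
    Multiset.map_singleton, Multiset.sum_singleton, Multiset.map_bind, Multiset.sum_bind, nsmul_eq_mul]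

theorem shifts_sum (a b : ℕ) (H : Multiset ℕ) (z : ℂ) :
    ((shifts a b H).map (con z)).sum + ((shifts a b H).map (con z)).sum =
      ((expo a b H).map (Tc z)).sum := by
  have h0 : con z 0 + con z 0 = Tc z 0 := by
    have := con_real z 0 0
    simpa using this
  have h1 : con z 1 + con z 1 = Tc z 0 := by
    have := con_real z 0 1
    have e : ((1 % 2 : ℤ) : ℂ) = 1 := by norm_num
    rw [e] at this
    simpa using this
  have h2 : (H.map fun k : ℕ => con z ((k : ℂ) / 2) + con z ((k : ℂ) / 2 + 1)).sum +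
      (H.map fun k : ℕ => con z ((k : ℂ) / 2) + con z ((k : ℂ) / 2 + 1)).sum =
      (H.map fun k : ℕ => 2 * Tc z ((k : ℂ) / 2)).sum := by
    rw [← Multiset.sum_map_add]
    congr 1
    refine Multiset.map_congr rfl fun k _ => ?_
    rw [con_pair]
    ring
  rw [expo_sum, shifts_map, ← h2]
  linear_combination (a : ℝ) * h0 + (b : ℝ) * h1

theorem cnt (H : Multiset ℕ) (k : ℕ) :
    (H.map fun k' => if k' = k then (1 : ℝ) else 0).sum = (H.count k : ℝ) := by
  induction H using Multiset.induction_on with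
  | empty => simp
  | cons x H ih =>
    rw [Multiset.map_cons, Multiset.sum_cons, ih, Multiset.count_cons]
    by_cases h : x = k
    · rw [if_pos h, if_pos h.symm]
      push_cast
      ring
    · rw [if_neg h, if_neg (Ne.symm h)]
      push_cast
      ring

theorem blk_sub {f : ℕ} (hf : 0 < f) (y T : ℂ) :
    ((Pool.Agent.U253.NFD.blk f y).map fun b => 1 - b * T).prod = 1 - y * T ^ f := by
  unfold Pool.Agent.U253.NFD.blk
  rw [List.map_map]
  have h1 : (((Polynomial.nthRootsFinset f (1 : ℂ)).toList.map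
      ((fun b => 1 - b * T) ∘ fun ζ => ζ * Pool.Agent.U253.NFD.rt f y))).prod =
      ∏ ζ ∈ Polynomial.nthRootsFinset f (1 : ℂ), (1 - ζ * (Pool.Agent.U253.NFD.rt f y * T)) := by
    rw [Finset.prod_map_toList]
    refine Finset.prod_congr rfl fun ζ _ => ?_
    rw [Function.comp_apply, mul_assoc]
  rw [h1, Pool.Agent.U253.NFD.prod_one_sub hf, mul_pow, Pool.Agent.U253.NFD.rt_pow hf]

open Classical in
/-- products of powers over lists with equal counts -/
theorem prod_counts {I : Type} [Fintype I] (L : I → List ℂ) (m : I → ℤ)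
    (h : ∀ y : ℂ, ∑ i, m i * ((L i).count y : ℤ) = 0) (φ : ℂ → ℂ) :
    ∏ i, ((L i).map φ).prod ^ (m i).toNat = ∏ i, ((L i).map φ).prod ^ (-m i).toNat := by
  set U : Finset ℂ := Finset.univ.biUnion fun i => (L i).toFinset with hU
  have e1 : ∀ i, ((L i).map φ).prod = ∏ y ∈ U, φ y ^ (L i).count y := by
    intro i
    rw [Finset.prod_list_map_count]
    refine Finset.prod_subset (Finset.subset_biUnion_of_mem (fun i => (L i).toFinset) (Finset.mem_univ i))
      fun y _ hy => ?_
    rw [List.count_eq_zero.2 (fun h => hy (List.mem_toFinset.2 h)), pow_zero]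
  have e2 : ∀ k : I → ℕ, ∏ i, ((L i).map φ).prod ^ k i = ∏ y ∈ U, φ y ^ (∑ i, k i * (L i).count y) := by
    intro k
    simp only [e1]
    rw [Finset.prod_congr rfl fun i _ => (Finset.prod_pow U (k i) fun y => φ y ^ (L i).count y).symm,
      Finset.prod_comm]
    refine Finset.prod_congr rfl fun y _ => ?_
    rw [← Finset.prod_pow_eq_pow_sum]
    refine Finset.prod_congr rfl fun i _ => ?_
    rw [← pow_mul, mul_comm]
  rw [e2, e2]
  refine Finset.prod_congr rfl fun y _ => ?_
  congr 1
  have h1 := h y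
  have h2 : ∑ i, (((m i).toNat : ℤ) * ((L i).count y : ℤ)) = ∑ i, (((-m i).toNat : ℤ) * ((L i).count y : ℤ)) := by
    rw [← sub_eq_zero, ← Finset.sum_sub_distrib]
    refine Eq.trans (Finset.sum_congr rfl fun i _ => ?_) h1
    rw [← sub_mul, Int.toNat_sub_toNat_neg]
  exact_mod_cast h2

theorem g1_pos {w : ℂ} (h : 0 < w.re) : g1 w = 0 :=
  Pool.Agent.N210.FW.mo_nz Complex.differentiable_Gammaℝ_inv
    (inv_ne_zero (Complex.Gammaℝ_ne_zero_of_re_pos h))

theorem g1_zero : g1 0 = 1 := by
  rw [g1_step, if_pos rfl, zero_add, g1_pos (by norm_num)]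

end arch

/-- **A relation on average between cuspidal representations and motives over several fields.** -/
theorem result {I : Type} [Fintype I] (K : I → Type) [∀ i, Field (K i)] [∀ i, NumberField (K i)]
    (S : Finset ℕ) (n a b : I → ℕ) (H : I → Multiset ℕ) (E : (i : I) → Ideal (𝓞 (K i)) → Multiset ℂ)
    (hM : ∀ i, Object (K i) S (n i) (a i) (b i) (H i) (E i)) (c : I → ℝ)
    (g : ℕ → ℝ) (B : ℝ) (hg : ∀ p, 0 ≤ g p)
    (hs : (fun X : ℕ => ∑ p ∈ (Finset.range X).filter (fun p => p.Prime ∧ p ∉ S),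
      g p * Real.log p) =o[atTop] (fun X : ℕ => √(X : ℝ)))
    (h : ∀ p : ℕ, p.Prime → p ∉ S →
      ((∀ i, ∀ v ∈ places (K i) p, ∀ x ∈ E i v, ‖x‖ ≤ B) ∧
        ‖∑ i, (c i : ℂ) * ∑ v ∈ (places (K i) p).filter (fun v => degree p v = 1), (E i v).sum‖ ≤ g p) ∨
      ∀ i, ∀ v ∈ places (K i) p, ∀ x ∈ E i v, ‖x‖ ≤ g p ^ degree p v) :
    -- the relation is exact above every prime, for all powers of the Frobenius
    (∀ p : ℕ, p.Prime → p ∉ S → ∀ k : ℕ, 0 < k →
      ∑ i, (c i : ℂ) * ∑ v ∈ (places (K i) p).filter (fun v => degree p v ∣ k),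
        (degree p v : ℂ) * ((E i v).map fun x => x ^ (k / degree p v)).sum = 0) ∧
    -- the L-factors agree, if the coefficients are integers
    (∀ m : I → ℤ, (∀ i, c i = m i) → ∀ p : ℕ, p.Prime → p ∉ S → ∀ T : ℂ,
      ∏ i, (∏ v ∈ places (K i) p, ((E i v).map fun x => 1 - x * T ^ degree p v).prod) ^ (m i).toNat =
      ∏ i, (∏ v ∈ places (K i) p, ((E i v).map fun x => 1 - x * T ^ degree p v).prod) ^ (-m i).toNat) ∧
    -- the relation holds for the Hodge numbers and the signatures
    (∑ i, c i * a i = 0 ∧ ∑ i, c i * b i = 0 ∧ ∀ k : ℕ, 0 < k → ∑ i, c i * (H i).count k = 0) ∧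
    -- the eigenvalues on the positive side come from the negative side
    (∀ p : ℕ, p.Prime → p ∉ S → ∀ i, 0 < c i → ∀ v ∈ places (K i) p, ∀ x ∈ E i v,
      ∃ j, c j < 0 ∧ ∃ w ∈ places (K j) p, ∃ x' ∈ E j w, ∃ y : ℂ,
        y ^ degree p v = x ∧ y ^ degree p w = x') ∧
    -- purity
    (∀ p : ℕ, p.Prime → p ∉ S → (∀ j, c j < 0 → ∀ w ∈ places (K j) p, ∀ x ∈ E j w, ‖x‖ = 1) →
      ∀ i, 0 < c i → ∀ v ∈ places (K i) p, ∀ x ∈ E i v, ‖x‖ = 1) := by
  classical
  have hdeg : ∀ i, ∀ p : ℕ, p.Prime → ∀ v ∈ places (K i) p,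
      Pool.Agent.U253.NFD.fdeg (K i) v = degree p v :=
    fun i p hp v hv => Pool.Agent.U253.NFD.fdeg_eq (K i) hp hv
  have hf : ∀ i, ∀ p : ℕ, p.Prime → ∀ v ∈ places (K i) p, 0 < Pool.Agent.U253.NFD.fdeg (K i) v := by
    intro i p hp v hv
    rw [hdeg i p hp v hv]
    exact ((Pool.Agent.U253.NFD.places_facts (K i) hp).1 v hv).1
  let ι : I → Type := fun i => Ideal (𝓞 (K i))
  let V : ∀ i : I, ℕ → Finset (ι i) := fun i p => places (K i) p
  let f : ∀ i : I, ι i → ℕ := fun i => Pool.Agent.U253.NFD.fdeg (K i)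
  let F : ∀ i : I, ι i → List ℂ := fun i v => (E i v).toList
  have hlen : ∀ i : I, ∀ p : ℕ, p.Prime → p ∉ S →
      (Pool.Agent.U253.MF.LL V f F p i).length ≤ Module.finrank ℚ (K i) * n i := by
    intro i p hp hpS
    have h1 := Pool.Agent.U253.NFD.lstE_sum (V i p) (f i) (F i) (fun _ => (1 : ℕ))
    have h2 : ((Pool.Agent.U253.NFD.lstE (V i p) (f i) (F i)).map fun _ => (1 : ℕ)).sum =
        (Pool.Agent.U253.MF.LL V f F p i).length := by
      rw [List.map_const', List.sum_replicate, smul_eq_mul, mul_one]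
      rfl
    rw [← h2, h1]
    calc ∑ v ∈ V i p, ((F i v).map fun a => ((Pool.Agent.U253.NFD.blk (f i v) a).map fun _ => (1 : ℕ)).sum).sum =
        ∑ v ∈ V i p, n i * f i v := by
          refine Finset.sum_congr rfl fun v hv => ?_
          have h3 : ∀ a : ℂ, ((Pool.Agent.U253.NFD.blk (f i v) a).map fun _ => (1 : ℕ)).sum = f i v := by
            intro a
            rw [List.map_const', List.sum_replicate, smul_eq_mul, mul_one,
              Pool.Agent.U253.NFD.blk_len (hf i p hp v hv)]
          simp only [h3]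
          rw [List.map_const', List.sum_replicate, smul_eq_mul]
          congr 1
          exact (Multiset.length_toList _).trans ((hM i).card p hp hpS v hv)
      _ = n i * ∑ v ∈ V i p, f i v := by rw [Finset.mul_sum]
      _ ≤ Module.finrank ℚ (K i) * n i := by
          rw [mul_comm]
          refine Nat.mul_le_mul_right _ ?_
          have h4 := (Pool.Agent.U253.NFD.places_facts (K i) hp).2
          refine le_of_eq_of_le (Finset.sum_congr rfl fun v hv => ?_) h4
          exact hdeg i p hp v hv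
  choose N D N' D' hC hC' hFE using fun i => (hM i).nice
  have hmapl : ∀ (A : Multiset ℂ) (G : ℂ → ℂ), (A.map G).prod = (A.toList.map G).prod := by
    intro A G
    conv_lhs => rw [← Multiset.coe_toList A, Multiset.map_coe, Multiset.prod_coe]
  have hmaps : ∀ (A : Multiset ℂ) (G : ℂ → ℂ), (A.map G).sum = (A.toList.map G).sum := by
    intro A G
    conv_lhs => rw [← Multiset.coe_toList A, Multiset.map_coe, Multiset.sum_coe]
  have hgi : ∀ (κ : Multiset ℂ) (s : ℂ), invGamma κ s = Pool.Agent.N210.FV.gi κ.toList s := by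
    intro κ s
    unfold invGamma
    rw [hmapl]
    rfl
  have hfac : ∀ (i : I) (p : ℕ), p.Prime → ∀ s : ℂ, eulerFactor (K i) (E i) p s =
      ∏ v ∈ V i p, ((F i v).map fun a => (1 - a * ((p : ℂ) ^ (-s)) ^ f i v)⁻¹).prod := by
    intro i p hp s
    unfold eulerFactor
    refine Finset.prod_congr rfl fun v hv => ?_
    rw [hmapl, ← Pool.Agent.U253.NFD.norm_cpow (K i) hp hv s]
  have hfac' : ∀ (i : I) (p : ℕ), p.Prime → ∀ s : ℂ,
      eulerFactor (K i) (fun v => (E i v).map fun x => x⁻¹) p s =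
      ∏ v ∈ V i p, ((F i v).map fun a => (1 - a⁻¹ * ((p : ℂ) ^ (-s)) ^ f i v)⁻¹).prod := by
    intro i p hp s
    unfold eulerFactor
    refine Finset.prod_congr rfl fun v hv => ?_
    rw [Multiset.map_map, hmapl, ← Pool.Agent.U253.NFD.norm_cpow (K i) hp hv s]
    rfl
  obtain ⟨hz, harch⟩ := Pool.Agent.U253.MF.gap_multi (Q := I) (ι := ι)
    (n := fun i => Module.finrank ℚ (K i) * n i) (c := c) (S := S) (V := V) (f := f) (E := F)
    (m := fun i => (shifts (a i) (b i) (H i)).toList) (m' := fun i => (shifts (a i) (b i) (H i)).toList)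
    (N := N) (D := D) (N' := N') (D' := D') (g := g) (B := B)
    (fun i p hp _ v hv => hf i p hp v hv) hlen
    (fun i p hp hpS v hv => by
      have h1 := (hM i).unitary p hp hpS v hv
      rw [← Multiset.coe_eq_coe, ← Multiset.map_coe, Multiset.coe_toList]
      exact h1)
    (fun i => by
      obtain ⟨a1, a2, a3, a4, a5⟩ := hC i
      refine ⟨a1, a2, a3, a4, fun s hs => (a5 s hs).congr fun X => Finset.prod_congr rfl fun p hp => ?_⟩
      exact hfac i p (Finset.mem_filter.1 hp).2.1 s) (fun i => by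
      obtain ⟨a1, a2, a3, a4, a5⟩ := hC' i
      refine ⟨a1, a2, a3, a4, fun s hs => (a5 s hs).congr fun X => Finset.prod_congr rfl fun p hp => ?_⟩
      exact hfac' i p (Finset.mem_filter.1 hp).2.1 s) (fun i => by
      obtain ⟨l, l', m, m', q', ε, hq, hε, b1, b2, b3, b4, hfe⟩ := hFE i
      refine ⟨l, l', m, m', q', ε, hq, hε, b1, b2, b3, b4, fun s => ?_⟩
      have h1 := hfe s
      rw [hgi, hgi] at h1
      exact h1) hg hs (fun p hp hpS => by
      rcases h p hp hpS with ⟨h1, h2⟩ | h1
      · left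
        refine ⟨fun i v hv x hx => h1 i v hv x (Multiset.mem_toList.1 hx), ?_⟩
        refine le_of_eq_of_le ?_ h2
        congr 1
        refine Finset.sum_congr rfl fun i _ => ?_
        congr 1
        rw [Finset.filter_congr fun v hv => by rw [show f i v = degree p v from hdeg i p hp v hv]]
        refine Finset.sum_congr rfl fun v _ => ?_
        show (E i v).toList.sum = _
        rw [Multiset.sum_toList]
      · right
        intro i v hv x hx
        rw [show f i v = degree p v from hdeg i p hp v hv]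
        exact h1 i v hv x (Multiset.mem_toList.1 hx))
  have hne : ∀ p : ℕ, p.Prime → p ∉ S → ∀ i, ∀ y ∈ Pool.Agent.U253.MF.LL V f F p i, y ≠ 0 := by
    intro p hp hpS i y hy
    obtain ⟨v, hv, x, hx, hy'⟩ := Pool.Agent.U253.NFD.mem_lstE.1 hy
    have h1 := Pool.Agent.U253.NFD.blk_pow (hf i p hp v hv) hy'
    intro h0
    rw [h0, zero_pow (hf i p hp v hv).ne'] at h1
    exact (hM i).ne_zero p hp hpS v hv x (Multiset.mem_toList.1 hx) h1.symm
  -- the eigenvalues come from the negative side
  have hneg : ∀ p : ℕ, p.Prime → p ∉ S → ∀ i, 0 < c i → ∀ v ∈ places (K i) p, ∀ x ∈ E i v,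
      ∃ j, c j < 0 ∧ ∃ w ∈ places (K j) p, ∃ x' ∈ E j w, ∃ y : ℂ,
        y ^ degree p v = x ∧ y ^ degree p w = x' := by
    intro p hp hpS i hci v hv x hx
    obtain ⟨y, hy⟩ : ∃ y, y ∈ Pool.Agent.U253.NFD.blk (f i v) x := by
      refine List.exists_mem_of_length_pos ?_
      rw [Pool.Agent.U253.NFD.blk_len (hf i p hp v hv)]
      exact hf i p hp v hv
    have h1 := Pool.Agent.U253.NFD.list_all (hne p hp hpS) (hz p hp hpS)
      fun b => if b = y then (1 : ℝ) else 0
    have hG0 : ∀ j, 0 ≤ ((Pool.Agent.U253.MF.LL V f F p j).map fun b => if b = y then (1 : ℝ) else 0).sum := by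
      intro j
      refine List.sum_nonneg fun r hr => ?_
      obtain ⟨b, -, rfl⟩ := List.mem_map.1 hr
      split_ifs <;> norm_num
    have h2 : 0 < ((Pool.Agent.U253.MF.LL V f F p i).map fun b => if b = y then (1 : ℝ) else 0).sum := by
      refine lt_of_lt_of_le zero_lt_one (List.single_le_sum (fun r hr => ?_) 1 (List.mem_map.2
        ⟨y, Pool.Agent.U253.NFD.mem_lstE.2 ⟨v, hv, x, Multiset.mem_toList.2 hx, hy⟩, if_pos rfl⟩))
      obtain ⟨b, -, rfl⟩ := List.mem_map.1 hr
      split_ifs <;> norm_num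
    obtain ⟨j, hj, hj'⟩ : ∃ j, c j < 0 ∧
        ((Pool.Agent.U253.MF.LL V f F p j).map fun b => if b = y then (1 : ℝ) else 0).sum ≠ 0 := by
      by_contra hcon
      push Not at hcon
      refine absurd h1 (ne_of_gt (Finset.sum_pos' (fun j _ => ?_) ⟨i, Finset.mem_univ _, mul_pos hci h2⟩))
      rcases lt_or_ge (c j) 0 with h3 | h3
      · rw [hcon j h3, mul_zero]
      · exact mul_nonneg h3 (hG0 j)
    obtain ⟨b', hb', h4⟩ : ∃ b' ∈ Pool.Agent.U253.MF.LL V f F p j, b' = y := by
      by_contra h3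
      push Not at h3
      refine hj' (List.sum_eq_zero fun r hr => ?_)
      obtain ⟨b, hb, rfl⟩ := List.mem_map.1 hr
      exact if_neg (h3 b hb)
    obtain ⟨w, hw, x', hx', hbb⟩ := Pool.Agent.U253.NFD.mem_lstE.1 hb'
    refine ⟨j, hj, w, hw, x', Multiset.mem_toList.1 hx', y, ?_, ?_⟩
    · rw [← hdeg i p hp v hv]
      exact Pool.Agent.U253.NFD.blk_pow (hf i p hp v hv) hy
    · rw [← hdeg j p hp w hw, ← h4]
      exact Pool.Agent.U253.NFD.blk_pow (hf j p hp w hw) hbb
  -- the exponents
  have hex := Pool.Agent.U253.NFD.arch_list (Q := I) (c := c) (X := fun i => expo (a i) (b i) (H i))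
    (m := fun i => (shifts (a i) (b i) (H i)).toList) (m' := fun i => (shifts (a i) (b i) (H i)).toList)
    (fun i z => by rw [toList_sum, shifts_sum]) harch
  have hhalf : ∀ i, ∀ k ∈ H i, (k : ℂ) / 2 ≠ 0 := by
    intro i k hk
    have := (hM i).positive k hk
    exact div_ne_zero (by exact_mod_cast this.ne') two_ne_zero
  have hcount : ∀ k : ℕ, 0 < k → ∑ i, c i * (H i).count k = 0 := by
    intro k hk
    have h1 := hex fun e => if e = (k : ℂ) / 2 then (1 : ℝ) else 0
    have hk2 : (0 : ℂ) ≠ (k : ℂ) / 2 := (div_ne_zero (by exact_mod_cast hk.ne') two_ne_zero).symm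
    have h2 : ∀ i, c i * ((expo (a i) (b i) (H i)).map fun e =>
        (if e = (k : ℂ) / 2 then (1 : ℝ) else 0) + if -e = (k : ℂ) / 2 then (1 : ℝ) else 0).sum =
        2 * (c i * (H i).count k) := by
      intro i
      rw [expo_sum]
      simp only [neg_zero]
      rw [if_neg hk2, add_zero, mul_zero, zero_add, ← cnt]
      have h3 : ∀ k' ∈ H i, 2 * ((if (k' : ℂ) / 2 = (k : ℂ) / 2 then (1 : ℝ) else 0) +
          if -((k' : ℂ) / 2) = (k : ℂ) / 2 then (1 : ℝ) else 0) = 2 * if k' = k then (1 : ℝ) else 0 := by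
        intro k' hk'
        have h4 : ¬ -((k' : ℂ) / 2) = (k : ℂ) / 2 := by
          intro h5
          have h6 : ((k' + k : ℕ) : ℂ) = 0 := by
            push_cast
            linear_combination (-2) * h5
          have h7 : k' + k = 0 := by exact_mod_cast h6
          omega
        have h8 : ((k' : ℂ) / 2 = (k : ℂ) / 2) ↔ k' = k := by
          rw [div_left_inj' two_ne_zero]
          exact Nat.cast_inj
        rw [if_neg h4, add_zero]
        simp only [h8]
      rw [Multiset.map_congr rfl h3, Multiset.sum_map_mul_left]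
      ring
    rw [Finset.sum_congr rfl fun i _ => h2 i, ← Finset.mul_sum] at h1
    exact (mul_eq_zero.1 h1).resolve_left two_ne_zero
  have hzero : ∑ i, c i * ((a i : ℝ) + b i) = 0 := by
    have h1 := hex fun e => if e = 0 then (1 : ℝ) else 0
    have h2 : ∀ i, c i * ((expo (a i) (b i) (H i)).map fun e =>
        (if e = 0 then (1 : ℝ) else 0) + if -e = 0 then (1 : ℝ) else 0).sum =
        2 * (c i * ((a i : ℝ) + b i)) := by
      intro i
      rw [expo_sum]
      have h3 : ∀ k' ∈ H i, 2 * ((if (k' : ℂ) / 2 = 0 then (1 : ℝ) else 0) +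
          if -((k' : ℂ) / 2) = 0 then (1 : ℝ) else 0) = 0 := by
        intro k' hk'
        rw [if_neg (hhalf i k' hk'), if_neg (neg_ne_zero.2 (hhalf i k' hk')), add_zero, mul_zero]
      rw [Multiset.map_congr rfl h3, Multiset.sum_map_zero, neg_zero, if_pos rfl]
      ring
    rw [Finset.sum_congr rfl fun i _ => h2 i, ← Finset.mul_sum] at h1
    exact (mul_eq_zero.1 h1).resolve_left two_ne_zero
  have hA : ∑ i, c i * (a i : ℝ) = 0 := by
    have h1 := harch 1
    rw [sub_self] at h1
    have h2 : ∀ i : I, c i * ((((Pool.Agent.N210.FV.mo (Pool.Agent.N210.FV.gi (shifts (a i) (b i) (H i)).toList) 0 : ℕ) : ℝ) +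
        (Pool.Agent.N210.FV.mo (Pool.Agent.N210.FV.gi (shifts (a i) (b i) (H i)).toList) 0 : ℕ)) -
        (((Pool.Agent.N210.FV.mo (Pool.Agent.N210.FV.gi (shifts (a i) (b i) (H i)).toList) 1 : ℕ) : ℝ) +
        (Pool.Agent.N210.FV.mo (Pool.Agent.N210.FV.gi (shifts (a i) (b i) (H i)).toList) 1 : ℕ))) =
        2 * (c i * a i) := by
      intro i
      have hmo : ∀ w : ℂ, ((Pool.Agent.N210.FV.mo (Pool.Agent.N210.FV.gi (shifts (a i) (b i) (H i)).toList) w : ℕ) : ℝ) =
          a i * (Pool.Agent.N210.FW.g1 w : ℝ) + b i * (Pool.Agent.N210.FW.g1 (w + 1) : ℝ) +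
          ((H i).map fun k : ℕ => (Pool.Agent.N210.FW.g1 (w + (k : ℂ) / 2) : ℝ) +
            (Pool.Agent.N210.FW.g1 (w + ((k : ℂ) / 2 + 1)) : ℝ)).sum := by
        intro w
        rw [Pool.Agent.N210.FW.mo_gi, Nat.cast_list_sum, List.map_map]
        have h3 := toList_sum (shifts (a i) (b i) (H i)) fun m => (Pool.Agent.N210.FW.g1 (w + m) : ℝ)
        rw [shifts_map, add_zero] at h3
        exact h3
      have hH : ∀ w : ℂ, 0 ≤ w.re → ((H i).map fun k : ℕ => (Pool.Agent.N210.FW.g1 (w + (k : ℂ) / 2) : ℝ) +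
            (Pool.Agent.N210.FW.g1 (w + ((k : ℂ) / 2 + 1)) : ℝ)).sum = 0 := by
        intro w hw
        refine Multiset.sum_eq_zero fun r hr => ?_
        obtain ⟨k, hk, rfl⟩ := Multiset.mem_map.1 hr
        have hk0 : (0 : ℝ) < k := by exact_mod_cast (hM i).positive k hk
        have e1 : ((k : ℂ) / 2).re = (k : ℝ) / 2 := by
          rw [show (k : ℂ) / 2 = (((k : ℝ) / 2 : ℝ) : ℂ) by push_cast; ring, Complex.ofReal_re]
        rw [g1_pos (by rw [Complex.add_re, e1]; linarith),
          g1_pos (by rw [Complex.add_re, Complex.add_re, e1, Complex.one_re]; linarith)]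
        norm_num
      rw [hmo 0, hmo 1, hH 0 (by simp), hH 1 (by simp), g1_zero, zero_add, g1_pos (w := 1) (by simp),
        g1_pos (w := 1 + 1) (by norm_num)]
      push_cast
      ring
    rw [Finset.sum_congr rfl fun i _ => h2 i, ← Finset.mul_sum] at h1
    exact (mul_eq_zero.1 h1).resolve_left two_ne_zero
  refine ⟨fun p hp hpS k hk => ?_, fun m hm p hp hpS T => ?_, ⟨hA, ?_, hcount⟩, hneg, fun p hp hpS hpure i hci v hv x hx => ?_⟩
  · -- the exact relation
    have h1 := Pool.Agent.U253.MF.pow_multi (Q := I) (ι := ι) (c := c) (V := V) (f := f) (E := F) (p := p)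
      (fun i v hv => hf i p hp v hv) (hz p hp hpS) hk
    rw [← h1]
    refine Finset.sum_congr rfl fun i _ => ?_
    congr 1
    have e : (places (K i) p).filter (fun v => degree p v ∣ k) = (V i p).filter (fun v => f i v ∣ k) :=
      Finset.filter_congr fun v hv => by rw [show f i v = degree p v from hdeg i p hp v hv]
    rw [e]
    refine Finset.sum_congr rfl fun v hv => ?_
    rw [show f i v = degree p v from hdeg i p hp v (Finset.mem_filter.1 hv).1, hmaps]
  · -- the L-factors
    have hLL : ∀ i, ∏ v ∈ places (K i) p, ((E i v).map fun x => 1 - x * T ^ degree p v).prod =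
        ((Pool.Agent.U253.MF.LL V f F p i).map fun b => 1 - b * T).prod := by
      intro i
      unfold Pool.Agent.U253.MF.LL
      rw [Pool.Agent.U253.MF.lstE_prod]
      refine Finset.prod_congr rfl fun v hv => ?_
      rw [hmapl]
      congr 1
      refine List.map_congr_left fun x _ => ?_
      rw [blk_sub (hf i p hp v hv), hdeg i p hp v hv]
    simp only [hLL]
    refine prod_counts _ m (fun y => ?_) _
    have h1 := Pool.Agent.U253.NFD.list_all (hne p hp hpS) (hz p hp hpS)
      fun b => if b = y then (1 : ℝ) else 0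
    have h2 : ∀ l : List ℂ, (l.map fun b => if b = y then (1 : ℝ) else 0).sum = (l.count y : ℝ) := by
      intro l
      induction l with
      | nil => simp
      | cons x l ih =>
        rw [List.map_cons, List.sum_cons, ih, List.count_cons]
        by_cases h3 : x = y
        · simp [h3, add_comm]
        · simp [h3]
    simp only [h2, hm] at h1
    exact_mod_cast h1
  · have h1 := hzero
    simp only [mul_add, Finset.sum_add_distrib] at h1
    linarith
  · -- purity
    obtain ⟨j, hj, w, hw, x', hx', y, h1, h2⟩ := hneg p hp hpS i hci v hv x hx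
    have h3 := hpure j hj w hw x' hx'
    rw [← h2, norm_pow] at h3
    have hw0 : degree p w ≠ 0 := by
      rw [← hdeg j p hp w hw]
      exact (hf j p hp w hw).ne'
    rw [← h1, norm_pow, (pow_eq_one_iff_of_nonneg (norm_nonneg _) hw0).1 h3, one_pow]

end Pool.Agent.Results.MP_7742d9_nt.ApproximateMotives
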