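import Pool.Agent.U849.SM.Main
import Pool.Agent.U849.SM.Mot
import Pool.Agent.U849.SM.Conj

/-!
# Motives of cuspidal representations all of whose exponents are zero: all places

Let `Π` be a cuspidal representation of `GL_n` over `ℚ`, unramified outside the finite set `S`, with integral Hecke
eigenvalues in a number field `K ⊂ ℂ`, such that the mean squares of the traces of the Satake parameters of all the
conjugates of `Π` are bounded, for arbitrarily large `x` (`IntegralSystem`; by the theory of Rankin and Selberg they tend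
to `1` if the conjugates are cuspidal automorphic; up to a twist this is the case `r = 0` of Clozel's conjecture:
`Π_∞ = h₊ 1 ⊕ h₋ sgn`). Assume that the L-function of `Π`, and those of the Artin representations of dimension `n`, with
their Euler factors at *all* primes and their gamma factors, have their continuations and functional equations
(`CompleteL`; Godement-Jacquet; Artin, Brauer). Let `E` be an infinite thin set of primes, where nothing is assumed but
a bound `w_p < √p` for the Satake parameters.

Theorem. Assume that there is an `ℓ`-adic representation, for *one* `ℓ ∈ E`, or that there are semisimple representations in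
characteristic `ℓ` for infinitely many `ℓ`, corresponding to `Π_p` at the primes `p ∉ S ∪ E`. Then there is an Artin
motive `M` of rank `n`, that is to say a representation `R` with open kernel of the absolute Galois group of `ℚ` over a
number field `L ⊇ K`, such that

* for *every* prime `p`, ramified or not, the Euler factor of `Π` at `p` is `det(1 - Frob_p p^{-s} | M^{I_p})⁻¹`;
* for all `p ∉ S` (also in `E`) `M` is unramified at `p` and the characteristic polynomial of the geometric Frobenius
  elements is that of the Satake parameters of `Π_p`;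
* the parameters of `Π_∞` are `0` with multiplicity `h₊` and `1` with multiplicity `h₋`, where `h₊ + h₋ = n`, and the
  complex conjugations have on `M` the characteristic polynomial `(X - 1) ^ h₊ (X + 1) ^ h₋`: these are the Hodge numbers
  `h^{0,0,±}` which the conjecture predicts;
* if the lower limit of the mean squares of the `|a_p|` is smaller than `2` (for cuspidal `Π` it is `1`), then `M` is
  absolutely irreducible.

Idea. Outside `E` the representation comes from the theorem of Deligne and Serre in dimension `n`; its L-function and that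
of `Π` agree outside a thin set, hence, by a Gaussian mean of the explicit formula, at all primes `p ∉ S`. At the primes of
`S` and at infinity: the local factors of two L-functions which agree outside `S` have poles only for `Re s < 1/2`, their
duals under `s ↦ 1 - s` only for `Re s > 1/2`; so the functional equations show that the products of the local factors
have the same poles with the same orders; the gamma factors have poles on finitely many horizontal lines only and the
poles of the factors of different primes are separated by their imaginary periods `2π / log p` (unique factorisation).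
-/

set_option autoImplicit false

namespace Pool.Agent.Results.MP_7742d9_nt.ArtinMotives

open NumberField Polynomial Filter Pool.Agent.U175.DS Pool.Agent.U849.TE Pool.Agent.U849.TG
  Pool.Agent.U849.SM

attribute [local instance 10] DivisionRing.toRatAlgebra

/-- The Satake parameters. -/
noncomputable def satake {K : Type} [Field K] [NumberField K] (f : ℕ → (𝓞 K)[X]) (σ₀ : K →+* ℂ) (p : ℕ) :
    Multiset ℂ := (toC σ₀ (f p)).roots

/-- Representations corresponding to `Π_p` at the primes `p ∉ S ∪ E`: one `ℓ`-adic representation, with `ℓ ∈ E`, or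
representations in infinitely many characteristics. -/
def HasOutside {K : Type} [Field K] [NumberField K] (n : ℕ) (S : Finset ℕ) (E : Set ℕ)
    (f : ℕ → (𝓞 K)[X]) (σ₀ : K →+* ℂ) : Prop :=
  (∃ (ℓ : ℕ) (_ : Fact ℓ.Prime) (ι : PadicAlgCl ℓ ≃+* ℂ), ℓ ∈ E ∧ HasLadic n (S ∪ E) f σ₀ ℓ ι) ∨
    {ℓ : ℕ | ℓ.Prime ∧ HasModular n (S ∪ E) f ℓ}.Infinite

section
variable {n : ℕ}

/-- The complete L-functions of the Artin representations of dimension `n` (Artin and Brauer): their Euler factors at
all primes, also at the ramified ones, their gamma factors given by the eigenvalues `±1` of the complex conjugations,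
and their functional equations. -/
def ArtinComplete (n : ℕ) (S : Finset ℕ) : Prop :=
  ∀ R : GQ →* GL (Fin n) ℂ, IsOpen (R.ker : Set GQ) →
    ∃ (C : ℕ → Multiset ℂ) (ν : Multiset ℂ), IsArtinFamily ∅ R C ∧
      (∀ c : GQ, IsComplexConj c →
        ν = ((R c : GL (Fin n) ℂ) : Matrix (Fin n) (Fin n) ℂ).charpoly.roots.map fun e => (1 - e) / 2) ∧
      CompleteL S C ν

/-- The complex representation given by an embedding of the coefficients. -/
noncomputable def cplx {L : Type} [Field L] (j : L →+* ℂ) (R : GQ →* GL (Fin n) L) : GQ →* GL (Fin n) ℂ :=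
  (Matrix.GeneralLinearGroup.map j).comp R

/-- No stable subspaces. -/
def Irreducible (R : GQ →* GL (Fin n) ℂ) : Prop :=
  0 < n ∧ ∀ W : Submodule ℂ (Fin n → ℂ),
    (∀ g, ∀ x ∈ W, ((R g : GL (Fin n) ℂ) : Matrix (Fin n) (Fin n) ℂ).mulVec x ∈ W) → W = ⊥ ∨ W = ⊤

/-- The parameters different from zero. -/
noncomputable def nonzero (B : Multiset ℂ) : Multiset ℂ := open Classical in B.filter fun b => b ≠ 0

/-- The multiplicity of a parameter. -/
noncomputable def mult (B : Multiset ℂ) (b : ℂ) : ℕ := open Classical in B.count b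

/-- The Artin motive `R` with coefficients in `L ⊂ ℂ` is attached to `Π`, with the Satake polynomials `f p` for
`p ∉ S`, the parameters `B p` of the Euler factors at all primes, and the parameters `μ` of the gamma factors. -/
structure IsAttached {K L : Type} [Field K] [NumberField K] [Field L] [Algebra K L] (S : Finset ℕ)
    (f : ℕ → (𝓞 K)[X]) (B : ℕ → Multiset ℂ) (μ : Multiset ℂ) (j : L →+* ℂ) (R : GQ →* GL (Fin n) L) : Prop where
  unramified : ∀ p : ℕ, p.Prime → p ∉ S →
    Corresponds R p ((f p).map ((algebraMap K L).comp (algebraMap (𝓞 K) K)))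
  euler_factor : ∀ p : ℕ, p.Prime → ∀ P : Ideal ZBar, P.IsMaximal → (p : ZBar) ∈ P → ∀ σ : GQ,
    IsGeomFrob p P σ → nonzero (B p) =
      nonzero (((cplx j R σ : GL (Fin n) ℂ) : Matrix (Fin n) (Fin n) ℂ) * proj (cplx j R) P).charpoly.roots
  infinity : ∀ c : GQ, IsComplexConj c →
    ((cplx j R c : GL (Fin n) ℂ) : Matrix (Fin n) (Fin n) ℂ).charpoly =
      (X - 1) ^ mult μ 0 * (X + 1) ^ mult μ 1

end

theorem mat_cplx {n : ℕ} {L : Type} [Field L] (j : L →+* ℂ) (R : GQ →* GL (Fin n) L) (g : GQ) :
    ((cplx j R g : GL (Fin n) ℂ) : Matrix (Fin n) (Fin n) ℂ) =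
      ((R g : GL (Fin n) L) : Matrix (Fin n) (Fin n) L).map j := rfl

theorem charpoly_cplx {n : ℕ} {L : Type} [Field L] (j : L →+* ℂ) (R : GQ →* GL (Fin n) L) (g : GQ) :
    ((cplx j R g : GL (Fin n) ℂ) : Matrix (Fin n) (Fin n) ℂ).charpoly =
      ((R g : GL (Fin n) L) : Matrix (Fin n) (Fin n) L).charpoly.map j := by
  rw [mat_cplx]
  exact Matrix.charpoly_map _ _

theorem ker_cplx {n : ℕ} {L : Type} [Field L] (j : L →+* ℂ) (R : GQ →* GL (Fin n) L) {g : GQ} :
    cplx j R g = 1 ↔ R g = 1 := by
  constructor
  · intro h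
    apply Units.ext
    have h1 : ((cplx j R g : GL (Fin n) ℂ) : Matrix (Fin n) (Fin n) ℂ) = 1 := by
      rw [h, Units.val_one]
    rw [mat_cplx] at h1
    apply Matrix.map_injective j.injective
    change ((R g : GL (Fin n) L) : Matrix (Fin n) (Fin n) L).map j =
      ((1 : GL (Fin n) L) : Matrix (Fin n) (Fin n) L).map j
    rw [h1, Units.val_one]
    exact (Matrix.map_one j (map_zero j) (map_one j)).symm
  · intro h
    unfold cplx
    rw [MonoidHom.comp_apply, h, map_one]

/-- **Artin motives at all places, from one `ℓ`-adic representation outside an infinite set of primes.** -/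
theorem result {K : Type} [Field K] [NumberField K] {n : ℕ} {S : Finset ℕ} {f : ℕ → (𝓞 K)[X]}
    (h : IntegralSystem K n S f) (σ₀ : K →+* ℂ) {B : ℕ → Multiset ℂ} {μ : Multiset ℂ}
    (hf : ∀ p : ℕ, p.Prime → p ∉ S → (f p).Monic ∧ (f p).natDegree = n ∧ (f p).coeff 0 ≠ 0 ∧
      B p = satake f σ₀ p)
    (hN : CompleteL S B μ) (hA : ArtinComplete n S) {E : Set ℕ} {w : ℕ → ℝ} (hE : ThinSet S E w)
    (h1 : ∀ p : ℕ, p.Prime → p ∉ S → p ∈ E → 1 ≤ w p) (hs : SmallAt S E w B)
    (hρ : HasOutside n S E f σ₀) :
    (∃ (L : Type) (_ : Field L) (_ : NumberField L) (_ : Algebra K L) (j : L →+* ℂ)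
      (R : GQ →* GL (Fin n) L), j.comp (algebraMap K L) = σ₀ ∧ IsOpen (R.ker : Set GQ) ∧
        IsAttached S f B μ j R ∧
        ((∃ θ : ℝ, θ < 2 ∧ ∃ᶠ x : ℕ in atTop,
          ∑ᶠ p ∈ {p : ℕ | p ≤ x ∧ p.Prime ∧ p ∉ (S : Set ℕ)}, ‖(B p).sum‖ ^ 2 ≤ θ * Nat.primeCounting x) →
            Irreducible (cplx j R))) ∧
      μ = Multiset.replicate (mult μ 0) 0 + Multiset.replicate (mult μ 1) 1 ∧ mult μ 0 + mult μ 1 = n := by
  classical
  have hz : Zd E := Zd.of_thin hE h1
  obtain ⟨R0, hR0, hatt⟩ : HasArtin n (S ∪ E) f σ₀ := by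
    rcases hρ with ⟨ℓ, hℓ, ι, hℓE, hl⟩ | hmod
    · exact artin_of_ladic h hz hℓE hl
    · exact artin_of_modular h hz σ₀ hmod
  obtain ⟨L, iL, iN, iA, j, R, hj, hRo, hker, hcp⟩ := descend σ₀ R0 hR0 fun g => by
    obtain ⟨p, P, σ, hp, hpB, hP, hpP, hσ, hg⟩ := exists_geom R0 hR0 (zd_union (S := S) hz) g
    refine ⟨(f p).map (algebraMap (𝓞 K) K), ?_⟩
    have h2 := (hatt p hp hpB P hP hpP).2 σ hσ
    unfold mat
    rw [← hg, h2, toC, Polynomial.map_map]
  have hR1o : IsOpen ((cplx j R).ker : Set GQ) := by
    have : (cplx j R).ker = R.ker := by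
      ext g
      rw [MonoidHom.mem_ker, MonoidHom.mem_ker, ker_cplx]
    rw [this]
    exact hRo
  have hcp1 : ∀ g, ((cplx j R g : GL (Fin n) ℂ) : Matrix (Fin n) (Fin n) ℂ).charpoly =
      ((R0 g : GL (Fin n) ℂ) : Matrix (Fin n) (Fin n) ℂ).charpoly := by
    intro g
    rw [charpoly_cplx, hcp g]
    rfl
  have hatt1 : ∀ p, p.Prime → p ∉ (S : Set ℕ) ∪ E → Corresponds (cplx j R) p (toC σ₀ (f p)) := by
    intro p hp hpB P hP hpP
    refine ⟨fun τ hτ => ?_, fun σ hσ => ?_⟩
    · rw [ker_cplx]
      exact hker ((hatt p hp hpB P hP hpP).1 τ hτ)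
    · rw [hcp1]
      exact (hatt p hp hpB P hP hpP).2 σ hσ
  obtain ⟨C, ν, hC, hν, hCN⟩ := hA (cplx j R) hR1o
  have hC' : IsArtinFamily S (cplx j R) C := fun p hp _ => hC p hp (Finset.notMem_empty p)
  have hcardB : ∀ p : ℕ, p.Prime → p ∉ S → (B p).card = n := by
    intro p hp hpS
    obtain ⟨h2, h3, -, h5⟩ := hf p hp hpS
    rw [h5, satake, IsAlgClosed.card_roots_eq_natDegree]
    unfold toC
    rw [h2.natDegree_map, h3]
  obtain ⟨k1, k2, k3⟩ := eq_everywhere hN hCN hcardB (fun p hp hpS => family_card hC' hp hpS) hE hs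
    (fun p hp hpS hpE c hc => by
      obtain ⟨h2, h3⟩ := family_norm hR1o hC' hp hpS hc
      exact ⟨h2.trans (h1 p hp hpS hpE), h3.trans (h1 p hp hpS hpE)⟩)
    (fun p hp hpS hpE => by
      rw [family_of_corresponds hR1o hC' hp hpS (hatt1 p hp (by
        rintro (h2 | h2)
        · exact hpS h2
        · exact hpE h2))]
      exact (hf p hp hpS).2.2.2)
  have hinj : Function.Injective (σ₀.comp (algebraMap (𝓞 K) K)) :=
    σ₀.injective.comp (FaithfulSMul.algebraMap_injective (𝓞 K) K)
  have hall : ∀ p, p.Prime → p ∉ S → Corresponds (cplx j R) p (toC σ₀ (f p)) := by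
    intro p hp hpS
    obtain ⟨h2, h3, h4, h5⟩ := hf p hp hpS
    refine corresponds_of_family hR1o hC' hp hpS ?_ ?_ ?_
    · exact h2.map _
    · unfold toC
      rw [coeff_map]
      exact (map_ne_zero_iff _ hinj).2 h4
    · rw [← k1 p hp hpS, h5, satake]
  obtain ⟨c₀, hc₀⟩ := exists_conj
  have hinv : ∀ c : GQ, IsComplexConj c → ((cplx j R c : GL (Fin n) ℂ) : Matrix (Fin n) (Fin n) ℂ) *
      ((cplx j R c : GL (Fin n) ℂ) : Matrix (Fin n) (Fin n) ℂ) = 1 := by
    intro c hc
    rw [← Units.val_mul, ← map_mul, conj_sq hc, map_one, Units.val_one]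
  have hμ := fun c hc => charpoly_involution (hinv c hc) (μ := μ) (k3.trans (hν c hc))
  refine ⟨⟨L, iL, iN, iA, j, R, hj, hRo, ⟨?_, ?_, ?_⟩, ?_⟩, (hμ c₀ hc₀).1, ?_⟩
  · intro p hp hpS P hP hpP
    obtain ⟨h2, h3⟩ := hall p hp hpS P hP hpP
    refine ⟨fun τ hτ => (ker_cplx j R).1 (h2 τ hτ), fun σ hσ => ?_⟩
    have h4 := h3 σ hσ
    rw [charpoly_cplx] at h4
    apply Polynomial.map_injective j j.injective
    rw [h4, Polynomial.map_map, ← RingHom.comp_assoc, hj]
    rfl
  · intro p hp P hP hpP σ hσ
    rw [← hC p hp (Finset.notMem_empty p) P hP hpP σ hσ]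
    unfold nonzero
    rw [Multiset.ext]
    intro x
    rw [Multiset.count_filter, Multiset.count_filter]
    split_ifs with hx
    · exact k2 p hp x hx
    · rfl
  · intro c hc
    exact (hμ c hc).2
  · rintro ⟨θ, hθ, hfreq⟩
    refine irr_of_meanSq h.pos (cplx j R) hR1o (S := S) (a := fun p => (B p).sum) ?_ hθ hfreq
    intro p hp hpS P hP hpP σ hσ
    unfold mat
    rw [Matrix.trace_eq_sum_roots_charpoly, (hall p hp hpS P hP hpP).2 σ hσ, (hf p hp hpS).2.2.2]
    rfl
  · have h2 := (hμ c₀ hc₀).1
    have h3 : μ.card = n := by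
      rw [k3, hν c₀ hc₀, Multiset.card_map, IsAlgClosed.card_roots_eq_natDegree,
        Matrix.charpoly_natDegree_eq_dim, Fintype.card_fin]
    rw [← h3]
    conv_rhs => rw [h2]
    rw [Multiset.card_add, Multiset.card_replicate, Multiset.card_replicate]
    rfl

end Pool.Agent.Results.MP_7742d9_nt.ArtinMotives
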