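import Pool.Agent.U419.UG.RigG

/-!
# Galois representations congruent to Artin representations

Let `L / F` be a finite Galois extension of number fields (`F = ℚ` in the question), `S` a set of prime
numbers, `A` a noetherian local ring with its adic topology and residue field `κ` of characteristic `l`
(for instance the integers of a finite extension of `ℚ_l`, `l` not in `S`), and let `R₁`, `R₂` be
continuous representations of rank `n ≥ 1` over `A` of the absolute Galois group of `F`, which are
unramified over `L` at all finite places outside `S`. Suppose that the reductions of `R₁` and `R₂` are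
isomorphic and absolutely irreducible over `L`, and that `H ^ 1 (L, ad (R₁ ⊗ κ))` has no nonzero class
unramified outside `S` which is fixed by the absolute Galois group of `F`.

Then `R₂ ≅ R₁ ⊗ θ` for a character `θ` of `Gal(L / F)`. In particular, if `R₁` is an Artin
representation (has finite image), then so is `R₂`, and `R₂` is realized by an Artin motive.
-/

set_option autoImplicit false

open NumberField IsLocalRing

namespace Pool.Agent.Results.MP_7742d9_nt.CongruentToArtin

/-- an algebraic closure `Ω` of `F` -/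
abbrev Om (F : Type) [Field F] : Type := AlgebraicClosure F

/-- the absolute Galois group of `F`, with the Krull topology -/
abbrev GG (F : Type) [Field F] : Type := Gal(AlgebraicClosure F/F)

/-- the absolute Galois group of `L`, as a subgroup of that of `F` -/
noncomputable def HH {F : Type} [Field F] (L : IntermediateField F (Om F)) : Subgroup (GG F) :=
  L.fixingSubgroup

/-- the union of the inertia groups at the finite places which do not lie above the primes of `S` -/
def Inertia (F : Type) [Field F] (S : Set ℕ) : Set (GG F) :=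
  {τ | ∃ P : Ideal (𝓞 (Om F)), P.IsMaximal ∧ (∀ q ∈ S, (q : 𝓞 (Om F)) ∉ P) ∧
    ∀ x : 𝓞 (Om F), τ • x - x ∈ P}

/-- `A` is a local ring with its adic topology, `R` is continuous, and unramified over `L` at all finite
places which do not lie above the primes of `S`. -/
structure IsAdmissible {F : Type} [Field F] (L : IntermediateField F (Om F)) (S : Set ℕ) {A : Type}
    [CommRing A] [IsLocalRing A] [TopologicalSpace A] {n : ℕ} (R : GG F →* GL (Fin n) A) : Prop where
  adic : IsAdic (maximalIdeal A)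
  continuous : Continuous R
  unramified : ∀ τ ∈ HH L, τ ∈ Inertia F S → R τ = 1

/-- the reduction of `R`, with values in the matrices over the residue field -/
noncomputable def reduction {F : Type} [Field F] {A : Type} [CommRing A] [IsLocalRing A] {n : ℕ}
    (R : GG F →* GL (Fin n) A) : GG F →* GL (Fin n) (ResidueField A) :=
  (Matrix.GeneralLinearGroup.map (residue A)).comp R

/-- The representation `r` is absolutely irreducible over `L`: its values there span all matrices (by
Burnside's theorem). -/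
def IrreducibleOver {F : Type} [Field F] (L : IntermediateField F (Om F)) {κ : Type}
    [Field κ] {n : ℕ} (r : GG F →* GL (Fin n) κ) : Prop :=
  Submodule.span κ (Set.range fun g : HH L => (r g : Matrix (Fin n) (Fin n) κ)) = ⊤

/-- `r₁` and `r₂` are isomorphic over `L`. -/
def IsomorphicOver {F : Type} [Field F] (L : IntermediateField F (Om F)) {B : Type} [CommRing B]
    {n : ℕ} (r₁ r₂ : GG F →* GL (Fin n) B) : Prop :=
  ∃ X : GL (Fin n) B, ∀ g ∈ HH L, r₂ g = X * r₁ g * X⁻¹

/-- the adjoint action: `M ↦ r(g) M r(g)⁻¹` -/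
noncomputable def ad {F : Type} [Field F] {κ : Type} [Field κ] {n : ℕ}
    (r : GG F →* GL (Fin n) κ) (g : GG F) (M : Matrix (Fin n) (Fin n) κ) :
    Matrix (Fin n) (Fin n) κ :=
  (r g).1 * M * (r g)⁻¹.1

/-- `b` is a continuous cocycle on the absolute Galois group of `L` with values in the matrices (with
the adjoint action), unramified outside `S`. -/
def IsCocycle {F : Type} [Field F] (L : IntermediateField F (Om F)) (S : Set ℕ)
    {κ : Type} [Field κ] {n : ℕ} (r : GG F →* GL (Fin n) κ)
    (b : HH L → Matrix (Fin n) (Fin n) κ) : Prop :=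
  (∀ g h : HH L, b (g * h) = b g + ad r g (b h)) ∧
    (∃ U : Subgroup (HH L), IsOpen (U : Set (HH L)) ∧ ∀ g ∈ U, b g = 0) ∧
    ∀ τ : HH L, (τ : GG F) ∈ Inertia F S → b τ = 0

/-- `b` is a coboundary. -/
def IsCoboundary {F : Type} [Field F] (L : IntermediateField F (Om F))
    {κ : Type} [Field κ] {n : ℕ} (r : GG F →* GL (Fin n) κ)
    (b : HH L → Matrix (Fin n) (Fin n) κ) : Prop :=
  ∃ x : Matrix (Fin n) (Fin n) κ, ∀ g : HH L, b g = x - ad r g x

/-- The class of the cocycle `b` is fixed by `σ`: the cocycle `g ↦ ad(σ)⁻¹ b(σ g σ⁻¹)` is equal to `b`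
up to a coboundary. -/
def IsFixed {F : Type} [Field F] (L : IntermediateField F (Om F))
    {κ : Type} [Field κ] {n : ℕ} (r : GG F →* GL (Fin n) κ) (σ : GG F)
    (b : HH L → Matrix (Fin n) (Fin n) κ) : Prop :=
  ∃ y : Matrix (Fin n) (Fin n) κ, ∀ g h : HH L, (h : GG F) = σ * g * σ⁻¹ →
    b h = ad r σ (b g + y - ad r g y)

/-- No nonzero class in `H ^ 1 (L, ad r)`, unramified outside `S`, is fixed by the absolute Galois group of
`F`. -/
def NoFixedClass {F : Type} [Field F] (L : IntermediateField F (Om F)) (S : Set ℕ)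
    {κ : Type} [Field κ] {n : ℕ} (r : GG F →* GL (Fin n) κ) : Prop :=
  ∀ b : HH L → Matrix (Fin n) (Fin n) κ, IsCocycle L S r b → (∀ σ : GG F, IsFixed L r σ b) →
    IsCoboundary L r b

/-- `R₂` is isomorphic to `R₁ ⊗ θ` for a character `θ` with values in the units of `A`, trivial on the
absolute Galois group of `L`. -/
def IsTwist {F : Type} [Field F] (L : IntermediateField F (Om F)) {A : Type} [CommRing A] {n : ℕ}
    (R₁ R₂ : GG F →* GL (Fin n) A) : Prop :=
  ∃ (Y : GL (Fin n) A) (θ : GG F →* Aˣ), (∀ g ∈ HH L, θ g = 1) ∧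
    ∀ g, (R₂ g : Matrix (Fin n) (Fin n) A) =
      (θ g : A) • ((Y * R₁ g * Y⁻¹ : GL (Fin n) A) : Matrix (Fin n) (Fin n) A)

theorem result (F : Type) [Field F] [NumberField F] (L : IntermediateField F (Om F))
    [FiniteDimensional F L] [IsGalois F L] (S : Set ℕ) (A : Type)
    [CommRing A] [IsLocalRing A] [IsNoetherianRing A] [TopologicalSpace A] (n : ℕ) (hn : 0 < n)
    (R₁ R₂ : GG F →* GL (Fin n) A) (h₁ : IsAdmissible L S R₁) (h₂ : IsAdmissible L S R₂)
    (hirr : IrreducibleOver L (reduction R₁))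
    (hiso : IsomorphicOver L (reduction R₁) (reduction R₂))
    (hno : NoFixedClass L S (reduction R₁)) :
    IsTwist L R₁ R₂ ∧ ((Set.range R₁).Finite → (Set.range R₂).Finite) := by
  have hN : (HH L).Normal := by
    unfold HH
    rw [← IntermediateField.restrictNormalHom_ker]
    infer_instance
  obtain ⟨X₀, hX₀⟩ := hiso
  obtain ⟨M, hM⟩ := Pool.Agent.U419.UG.exists_lift (A := A) (X₀ : Matrix (Fin n) (Fin n) _)
  have hMu : IsUnit M := by
    rw [Matrix.isUnit_iff_isUnit_det]
    by_contra hcon
    have h1 : residue A M.det = 0 := (residue_eq_zero_iff _).2 ((mem_maximalIdeal _).2 hcon)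
    rw [RingHom.map_det] at h1
    have h2 : (residue A).mapMatrix M = (X₀ : Matrix (Fin n) (Fin n) _) := hM.symm
    rw [h2] at h1
    exact ((Matrix.isUnit_iff_isUnit_det _).1 X₀.isUnit).ne_zero h1
  let W : GL (Fin n) A := hMu.unit
  have hW : Matrix.GeneralLinearGroup.map (residue A) W = X₀ := by
    apply Units.ext
    exact hM.symm
  let R₃ : GG F →* GL (Fin n) A := (MulAut.conj W⁻¹).toMonoidHom.comp R₂
  have hR₃ : ∀ g, R₃ g = W⁻¹ * R₂ g * W := fun g => by
    change W⁻¹ * R₂ g * W⁻¹⁻¹ = _
    rw [inv_inv]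
  have ho₁ := fun k => Pool.Agent.U419.UG.open_ker h₁.adic R₁ h₁.continuous k
  have ho₃ : ∀ k, IsOpen (((Pool.Agent.U419.UG.Rk A n k).comp R₃).ker : Set (GG F)) := by
    intro k
    refine Subgroup.isOpen_mono ?_ (Pool.Agent.U419.UG.open_ker h₂.adic R₂ h₂.continuous k)
    intro g hg
    have h1 : Pool.Agent.U419.UG.Rk A n k (R₂ g) = 1 := hg
    change Pool.Agent.U419.UG.Rk A n k (R₃ g) = 1
    rw [hR₃, map_mul, map_mul, h1, mul_one, ← map_mul, inv_mul_cancel, map_one]
  have hcong : ∀ g : HH L, Pool.Agent.U419.UG.bar (R₃ g) = Pool.Agent.U419.UG.bar (R₁ g) := by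
    intro g
    have h1 := hX₀ g g.2
    have h2 : Matrix.GeneralLinearGroup.map (residue A) (R₃ g) =
        Matrix.GeneralLinearGroup.map (residue A) (R₁ g) := by
      rw [hR₃, map_mul, map_mul, map_inv, hW]
      have h3 : Matrix.GeneralLinearGroup.map (residue A) (R₂ g) =
          X₀ * Matrix.GeneralLinearGroup.map (residue A) (R₁ g) * X₀⁻¹ := h1
      rw [h3]
      group
    exact congrArg Units.val h2
  obtain ⟨Y, θ, hθ, hY⟩ := Pool.Agent.U419.UG.unique_fix (H := HH L) hn (Inertia F S)
    R₁ R₃ ho₁ ho₃ (fun τ hτ => h₁.unramified τ τ.2 hτ) (fun τ hτ => by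
      rw [hR₃, h₂.unramified τ τ.2 hτ, mul_one, inv_mul_cancel]) hirr (by
      rintro ⟨b, hb1, hb2, hb3, hb4, hb5⟩
      exact hb5 (hno b ⟨hb1, hb2, hb3⟩ hb4)) hcong
  have hfin : ∀ g, (R₂ g : Matrix (Fin n) (Fin n) A) =
      (θ g : A) • ((W * Y * R₁ g * (W * Y)⁻¹ : GL (Fin n) A) : Matrix (Fin n) (Fin n) A) := by
    intro g
    have h1 : R₂ g = W * R₃ g * W⁻¹ := by rw [hR₃]; group
    have h2 : W * Y * R₁ g * (W * Y)⁻¹ = W * (Y * R₁ g * Y⁻¹) * W⁻¹ := by group
    rw [h1, h2, Units.val_mul (W * R₃ g), Units.val_mul W, hY, mul_smul_comm, smul_mul_assoc,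
      Units.val_mul (W * (Y * R₁ g * Y⁻¹)), Units.val_mul W]
  refine ⟨⟨W * Y, θ, fun g hg => hθ ⟨g, hg⟩, hfin⟩, fun hR => ?_⟩
  have hfi : Finite (GG F ⧸ HH L) :=
    Subgroup.quotient_finite_of_isOpen _ (IntermediateField.fixingSubgroup_isOpen L)
  have hle : HH L ≤ θ.ker := fun g hg => hθ ⟨g, hg⟩
  have hθf : (Set.range θ).Finite := by
    refine (Set.finite_range (QuotientGroup.lift (HH L) θ hle)).subset ?_
    rintro _ ⟨g, rfl⟩
    exact ⟨(g : GG F ⧸ HH L), rfl⟩
  have h3 := (hθf.prod hR).image fun x : Aˣ × GL (Fin n) A =>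
    (x.1 : A) • ((W * Y * x.2 * (W * Y)⁻¹ : GL (Fin n) A) : Matrix (Fin n) (Fin n) A)
  refine Set.Finite.of_finite_image (f := Units.val) (h3.subset ?_) Units.val_injective.injOn
  rintro _ ⟨_, ⟨g, rfl⟩, rfl⟩
  exact ⟨(θ g, R₁ g), ⟨⟨g, rfl⟩, ⟨g, rfl⟩⟩, (hfin g).symm⟩

end Pool.Agent.Results.MP_7742d9_nt.CongruentToArtin
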