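import Pool.Agent.H320R.OH.Main

/-!
# The irreducibility of the motives attached to `Π`, from one Hecke polynomial

Let `Π` be an algebraic cuspidal automorphic representation of `GL_n` over `ℚ`, and let `S p` be the set of
the `n` numbers which Clozel's conjecture attaches to an unramified prime `p`: the eigenvalues of the
geometric Frobenius element at `p` on the realisations of the motive `M_Π`, up to `ι`. The conjecture
predicts a motive which is absolutely irreducible. Let `ρ` be any continuous representation of the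
absolute Galois group of `ℚ` over the algebraic closure of `ℚ_ℓ` which is attached to `Π` at the primes in
a set `T` of at least three primes `p ≠ ℓ`, for which the numbers in `S p` are algebraic (for example a
realisation of a motive with the property (2) of the conjecture, and `T` the set of all good primes `≠ ℓ`).
We call a complex number a power of `p` (`IsPower`) if it is the product of a root of unity and a rational
power of `p`.

(1) For each stable subspace `U` there is a rational number `s = a / N` such that for all `p` in `T` the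
product of the eigenvalues of the Frobenius element at `p` on `U` (a part of `S p` with `dim U` members) is,
up to a root of unity, `p ^ s`.

(2) If for each `d` with `0 < d ≤ n / 2` there is a prime `p` in `T` such that no product of `d` members of
`S p` is a power of `p`, then `ρ` is irreducible. So one such prime (for all `d`) gives the irreducibility for
all `ℓ ≠ p`, and of the motive.

(3) Let `p` be in `T` and `H` the Hecke polynomial at `p`, with coefficients in a number field `E`. If `n` is a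
prime number and `H` is irreducible over `E`, then `ρ` is irreducible, for every `ℓ ≠ p`, unless all the
roots of `H` are powers of `p`. The same is true, for all `n`, if `H` is separable and its Galois group over
`E` is doubly transitive (on the roots).

There is no assumption on `Π` at infinity (it need not be regular), no purity, no self-duality, and
nothing is assumed of `ρ` at `ℓ` or at the bad primes; `ρ` need not be semisimple. (In general the
irreducibility of `H` over `E` shows only the irreducibility of the representations for the places `λ`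
with `H` irreducible over `E_λ`.)

Proof. By the `ℓ`-adic six exponentials theorem the determinant of `U` is up to a character of finite
order a rational power of the cyclotomic character; this gives (1) and (2). For (3), the rational vectors
which are proportional to relations `∏ z_i ^ c_i = p ^ a` form a subspace of `ℚ ^ n` which is
stable under the Galois group, and contains the characteristic function of a proper nonempty set.
If the Galois group is transitive of prime degree or doubly transitive, such a subspace is the whole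
space (for the first case: sums of different roots of unity of order `n` are not zero).
-/

set_option autoImplicit false

namespace Pool.Agent.Results.MP_7742d9_nt.OneHeckePolynomial

open NumberField Polynomial Matrix Module

/-- `Q` is a prime ideal above the prime number `p` of the ring of all algebraic integers. -/
def PrimeOver (p : ℕ) (Q : Ideal (𝓞 (AlgebraicClosure ℚ))) : Prop :=
  Q.IsPrime ∧ (p : 𝓞 (AlgebraicClosure ℚ)) ∈ Q

/-- `g` is an (arithmetic) Frobenius element at the prime ideal `Q` above `p`. -/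
def IsFrobenius (p : ℕ) (Q : Ideal (𝓞 (AlgebraicClosure ℚ))) (g : Gal(AlgebraicClosure ℚ/ℚ)) :
    Prop := ∀ x : 𝓞 (AlgebraicClosure ℚ), g • x - x ^ p ∈ Q

variable {ℓ : ℕ} [Fact ℓ.Prime] {n : ℕ}

/-- The matrix of `g`. -/
noncomputable def mat (ρ : Gal(AlgebraicClosure ℚ/ℚ) →* GL (Fin n) (PadicAlgCl ℓ))
    (g : Gal(AlgebraicClosure ℚ/ℚ)) : Matrix (Fin n) (Fin n) (PadicAlgCl ℓ) :=
  (ρ g : GL (Fin n) (PadicAlgCl ℓ))

/-- The eigenvalues (with multiplicities) of every geometric Frobenius element at `p` correspond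
under `ι` to the complex numbers in `S`. -/
def AttachedAt (ρ : Gal(AlgebraicClosure ℚ/ℚ) →* GL (Fin n) (PadicAlgCl ℓ))
    (ι : PadicAlgCl ℓ →+* ℂ) (p : ℕ) (S : Multiset ℂ) : Prop :=
  ∀ Q, PrimeOver p Q → ∀ g, IsFrobenius p Q g → ((mat ρ g⁻¹).charpoly.map ι).roots = S

/-- `U` is a subrepresentation of `ρ`. -/
def Stable (ρ : Gal(AlgebraicClosure ℚ/ℚ) →* GL (Fin n) (PadicAlgCl ℓ))
    (U : Submodule (PadicAlgCl ℓ) (Fin n → PadicAlgCl ℓ)) : Prop := ∀ g, ∀ x ∈ U, mat ρ g *ᵥ x ∈ U

/-- `ρ` is irreducible. -/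
def Irreducible (ρ : Gal(AlgebraicClosure ℚ/ℚ) →* GL (Fin n) (PadicAlgCl ℓ)) : Prop :=
  0 < n ∧ ∀ U, Stable ρ U → U = ⊥ ∨ U = ⊤

/-- `x` is the product of a root of unity and a rational power of `p`: `x ^ N = p ^ a`. -/
def IsPower (p : ℕ) (x : ℂ) : Prop := ∃ (N : ℕ) (a : ℤ), 0 < N ∧ x ^ N = (p : ℂ) ^ a

/-- The Galois group of `H` is doubly transitive on the complex roots of `H`. -/
def DoublyTransitive {E : Type} [Field E] [Algebra E ℂ] (H : E[X]) : Prop :=
  ∀ a b c d : H.rootSet ℂ, a ≠ b → c ≠ d → ∃ g : H.Gal, g • a = c ∧ g • b = d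

/-- **Irreducibility from Hecke polynomials.** -/
theorem result (ℓ : ℕ) [Fact ℓ.Prime] {n : ℕ} (hn : 0 < n) (S : ℕ → Multiset ℂ) (T : Set ℕ)
    (hT3 : 3 ≤ T.encard) (hT : ∀ p ∈ T, p.Prime ∧ p ≠ ℓ)
    (halg : ∀ p ∈ T, ∀ a ∈ S p, IsAlgebraic ℚ a) (ι : PadicAlgCl ℓ →+* ℂ)
    (ρ : Gal(AlgebraicClosure ℚ/ℚ) →* GL (Fin n) (PadicAlgCl ℓ)) (hρ : Continuous ρ)
    (hS : ∀ p ∈ T, AttachedAt ρ ι p (S p)) :
    (∀ U, Stable ρ U → ∃ (N : ℕ) (a : ℤ), 0 < N ∧ ∀ p ∈ T, ∃ A : Multiset ℂ, A ≤ S p ∧
      Multiset.card A = finrank (PadicAlgCl ℓ) U ∧ A.prod ^ N = (p : ℂ) ^ a) ∧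
    ((∀ d, 0 < d → 2 * d ≤ n → ∃ p ∈ T, ∀ A : Multiset ℂ, A ≤ S p → Multiset.card A = d →
      ¬ IsPower p A.prod) → Irreducible ρ) ∧
    (∀ p ∈ T, ∀ (E : Type) [Field E] [NumberField E] [Algebra E ℂ] (H : E[X]),
      (H.map (algebraMap E ℂ)).roots = S p → H.natDegree = n → (∃ z ∈ S p, ¬ IsPower p z) →
      (n.Prime ∧ _root_.Irreducible H ∨ H.Separable ∧ DoublyTransitive H) → Irreducible ρ) := by
  classical
  have hgood : ∀ p ∈ T, ∀ Q : Ideal (𝓞 (AlgebraicClosure ℚ)), Q.IsPrime →
      (p : 𝓞 (AlgebraicClosure ℚ)) ∈ Q → ∀ g, IsFrobenius p Q g →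
      ((mat ρ g⁻¹).charpoly.map ι).roots = S p :=
    fun p hp Q' hQ' hpQ' g hg => hS p hp Q' ⟨hQ', hpQ'⟩ g hg
  have h1 : ∀ U, Stable ρ U → ∃ (N : ℕ) (a : ℤ), 0 < N ∧ ∀ p ∈ T, ∃ A : Multiset ℂ, A ≤ S p ∧
      Multiset.card A = finrank (PadicAlgCl ℓ) U ∧ A.prod ^ N = (p : ℂ) ^ a :=
    fun U hU => Pool.Agent.H320R.OH.slopes ρ hρ ι T hT3 hT S hgood halg U (fun g x hx => hU g x hx)
  have hcard : ∀ p ∈ T, Multiset.card (S p) = n := by
    intro p hp
    obtain ⟨Q, σ, hQ, hpQ, hσ⟩ := Pool.Agent.Y115.T.exists_frobQ (hT p hp).1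
    rw [← hgood p hp Q hQ.isPrime hpQ σ hσ]
    have h2 : ((mat ρ σ⁻¹).charpoly.map ι).Splits := IsAlgClosed.splits _
    rw [← h2.natDegree_eq_card_roots, Polynomial.natDegree_map, Matrix.charpoly_natDegree_eq_dim,
      Fintype.card_fin]
  have htop : ∀ p ∈ T, IsPower p (S p).prod := by
    intro p hp
    obtain ⟨N, a, hN, h2⟩ := h1 ⊤ (fun g x _ => Submodule.mem_top)
    obtain ⟨A, hA, hAc, hAp⟩ := h2 p hp
    rw [finrank_top, finrank_fin_fun] at hAc
    have h3 : A = S p := Multiset.eq_of_le_of_card_le hA (by rw [hcard p hp, hAc])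
    rw [h3] at hAp
    exact ⟨N, a, hN, hAp⟩
  have hp0 : ∀ p ∈ T, (p : ℂ) ≠ 0 := fun p hp => Nat.cast_ne_zero.2 (hT p hp).1.ne_zero
  have hdim : ∀ U : Submodule (PadicAlgCl ℓ) (Fin n → PadicAlgCl ℓ), U ≠ ⊥ → U ≠ ⊤ →
      0 < finrank (PadicAlgCl ℓ) U ∧ finrank (PadicAlgCl ℓ) U < n := by
    intro U hb ht
    refine ⟨?_, ?_⟩
    · rw [Nat.pos_iff_ne_zero]
      intro h0
      exact hb (Submodule.finrank_eq_zero.1 h0)
    · have h2 := Submodule.finrank_lt ht
      rwa [finrank_fin_fun] at h2
  refine ⟨h1, fun hrel => ⟨hn, fun U hU => ?_⟩, ?_⟩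
  · by_contra hcon
    push Not at hcon
    obtain ⟨hd0, hdn⟩ := hdim U hcon.1 hcon.2
    obtain ⟨N, a, hN, h2⟩ := h1 U hU
    rcases Nat.lt_or_ge n (2 * finrank (PadicAlgCl ℓ) U) with hlt | hge
    · obtain ⟨p, hp, h3⟩ := hrel (n - finrank (PadicAlgCl ℓ) U) (by omega) (by omega)
      obtain ⟨A, hA, hAc, hAp⟩ := h2 p hp
      refine h3 (S p - A) (Multiset.sub_le_self _ _) ?_ ?_
      · rw [Multiset.card_sub hA, hcard p hp, hAc]
      · have h4 : (S p - A).prod = (S p).prod / A.prod := by
          have h5 : A.prod ≠ 0 := Pool.Agent.H320R.OH.IsPower.ne_zero (hp0 p hp) ⟨N, a, hN, hAp⟩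
          rw [eq_div_iff h5, ← Multiset.prod_add, tsub_add_cancel_of_le hA]
        rw [h4]
        exact Pool.Agent.H320R.OH.IsPower.div (hp0 p hp) (htop p hp) ⟨N, a, hN, hAp⟩
    · obtain ⟨p, hp, h3⟩ := hrel _ hd0 hge
      obtain ⟨A, hA, hAc, hAp⟩ := h2 p hp
      exact h3 A hA hAc ⟨N, a, hN, hAp⟩
  · intro p hp E _ _ _ H hH hdeg hz hG
    refine ⟨hn, fun U hU => ?_⟩
    by_contra hcon
    push Not at hcon
    obtain ⟨hd0, hdn⟩ := hdim U hcon.1 hcon.2
    obtain ⟨N, a, hN, h2⟩ := h1 U hU
    obtain ⟨A, hA, hAc, hAp⟩ := h2 p hp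
    obtain ⟨z, hzS, hz⟩ := hz
    apply hz
    have hsep : H.Separable := by
      rcases hG with ⟨-, hirr⟩ | ⟨hs, -⟩
      · exact hirr.separable
      · exact hs
    refine Pool.Agent.H320R.OH.isPower_roots H (hp0 p hp) hsep ?_ ?_ (A := A) ?_ ?_ ?_
      ⟨N, a, hN, hAp⟩ z ?_
    · rw [hH]
      intro h0
      have h3 : (S p).prod = 0 := Multiset.prod_eq_zero h0
      exact Pool.Agent.H320R.OH.IsPower.ne_zero (hp0 p hp) (htop p hp) h3
    · rcases hG with ⟨hpr, hirr⟩ | ⟨-, h2t⟩
      · exact Or.inl ⟨hirr, by rw [hdeg]; exact hpr⟩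
      · exact Or.inr h2t
    · rw [hH]
      exact hA
    · rw [hAc]
      exact hd0
    · rw [hAc, hdeg]
      exact hdn
    · rw [hH]
      exact hzS

end Pool.Agent.Results.MP_7742d9_nt.OneHeckePolynomial
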